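import Pool.Agent.X135.TT.Cover

/-!
# Large-diameter clusters without giant components on finite transitive graphs

A sequence of thin tori `ℤ/N × ℤ/m` (4-regular, connected, transitive) and a parameter `p` such
that every vertex lies with probability more than `1/5` in a component whose diameter is at least
half of the diameter of the graph, while for every `C > 0` the probability that some component
has at least `C |V|` vertices stays bounded away from `1`.
-/

set_option autoImplicit false

open MeasureTheory Filter Topology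

namespace Pool.Agent.Results.MP_6e7106_pr.ThinTori

/-- Bond percolation on `G` with parameter `p`: every edge is kept (`true`) with probability `p`
and deleted (`false`) with probability `1 - p`, independently of the other edges. -/
noncomputable def percolation {V : Type} (G : SimpleGraph V) (p : unitInterval) :
    Measure (G.edgeSet → Bool) :=
  Measure.infinitePi (fun _ => ProbabilityTheory.bernoulliMeasure true false p)

/-- The graph of the kept edges, on the vertex set of `G`. -/
def keptGraph {V : Type} (G : SimpleGraph V) (ω : G.edgeSet → Bool) : SimpleGraph V :=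
  SimpleGraph.fromEdgeSet {e | ∃ h : e ∈ G.edgeSet, ω ⟨e, h⟩ = true}

/-- The component of `v`. -/
def component {V : Type} (G : SimpleGraph V) (ω : G.edgeSet → Bool) (v : V) : Set V :=
  {w | (keptGraph G ω).Reachable v w}

/-- The event that `v` lies in a component of diameter at least `diam(G) / 2`, the diameter of the
component being measured in the graph metric of `G`. -/
def inLongComponent {V : Type} (G : SimpleGraph V) (v : V) : Set (G.edgeSet → Bool) :=
  {ω | ∃ x ∈ component G ω v, ∃ y ∈ component G ω v, (G.diam : ℝ) / 2 ≤ G.dist x y}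

/-- The event that some component has at least `C |V|` vertices. -/
def someLargeComponent {V : Type} (G : SimpleGraph V) (C : ℝ) : Set (G.edgeSet → Bool) :=
  {ω | ∃ v, C * (Nat.card V : ℝ) ≤ ((component G ω v).ncard : ℝ)}

open Pool.Agent.X135.TT H974

/-- The parameter. -/
noncomputable def par : unitInterval := ⟨p0, p0_nonneg, p0_le⟩

theorem Nk3 (n : ℕ) : 3 ≤ Nk n := by
  have := Nk_huge n
  omega

theorem mk3 (n : ℕ) : 3 ≤ mk n := by
  have := mk_ge n
  omega

theorem long_prob (n : ℕ) (v : ZMod (Nk n) × ZMod (mk n)) :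
    1 / 4 ≤ (percolation (torus (Nk n) (mk n)) par).real
      (inLongComponent (torus (Nk n) (mk n)) v) := by
  set c : ZMod (Nk n) × ZMod (mk n) := v - cov 0 (2 * (Mk n : ℤ), 2 * (Mk n : ℤ)) with hc
  have hcv : cov c (2 * (Mk n : ℤ), 2 * (Mk n : ℤ)) = v := by
    rw [hc]
    unfold cov
    simp
  have h1 := law_event (tau (Nk3 n) (mk3 n) c) par (tau_injOn (Nk3 n) (mk3 n) c)
    (QH (Nk n) (mk n) (Mk n) (Dk n))
  have h2 := pr_QH n
  have h3 : (bLaw (torus (Nk n) (mk n)) par).real
      {ω | QH (Nk n) (mk n) (Mk n) (Dk n) (FF (tau (Nk3 n) (mk3 n) c) (FD (Nk n) (mk n)) ω)} ≤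
      (percolation (torus (Nk n) (mk n)) par).real
        (inLongComponent (torus (Nk n) (mk n)) v) := by
    show (bLaw (torus (Nk n) (mk n)) par).real _ ≤ (bLaw (torus (Nk n) (mk n)) par).real _
    refine measureReal_mono ?_ (measure_ne_top _ _)
    rintro ω ⟨y, y', hy, hy'⟩
    rw [per_FF] at hy hy'
    have r1 := push_reach (Nk3 n) (mk3 n) c hy
    have r2 := push_reach (Nk3 n) (mk3 n) c hy'
    rw [hcv] at r1 r2
    refine ⟨_, r1, _, r2, ?_⟩
    have hN := Nk_huge n
    have hs := sk_ge n
    have hD : Dk n = Nk n / 4 + mk n + 1 := rfl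
    have hdist : Dk n ≤ (torus (Nk n) (mk n)).dist (cov c (2 * (Mk n : ℤ), y))
        (cov c (2 * (Mk n : ℤ) + (Dk n : ℤ), y')) := by
      apply torus_dist (Nk3 n) (mk3 n)
      · omega
      · unfold cov
        simp only [Prod.fst_add]
        push_cast
        ring
    have hdiam := torus_diam (Nk3 n) (mk3 n)
    have h5 : (torus (Nk n) (mk n)).diam ≤ 2 * (torus (Nk n) (mk n)).dist
        (cov c (2 * (Mk n : ℤ), y)) (cov c (2 * (Mk n : ℤ) + (Dk n : ℤ), y')) := by omega
    have h6 : ((torus (Nk n) (mk n)).diam : ℝ) ≤ 2 * ((torus (Nk n) (mk n)).dist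
        (cov c (2 * (Mk n : ℤ), y)) (cov c (2 * (Mk n : ℤ) + (Dk n : ℤ), y')) : ℝ) := by
      exact_mod_cast h5
    linarith
  have h4 : (par : ℝ) = p0 := rfl
  rw [h4] at h1
  linarith

/-- If all the segments are broken, all the components are small. -/
theorem small_comp {N m K ℓ : ℕ} (hN : 3 ≤ N) (hm : 3 ≤ m) (hK : 1 ≤ K) (hℓ : 1 ≤ ℓ)
    (h1 : K * ℓ ≤ N) (h2 : N < K * (ℓ + 1)) {ω : (torus N m).edgeSet → Bool}
    (hQ : QC m K ℓ (FF (tau hN hm 0) (FD N m) ω)) (v : ZMod N × ZMod m) :
    (component (torus N m) ω v).ncard ≤ (4 * ℓ + 2 * K + 1) * m := by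
  obtain ⟨⟨x, y⟩, rfl⟩ := cov_surj (by omega) (by omega) 0 v
  have hsub : component (torus N m) ω (cov 0 (x, y)) ⊆
      (fun z : ℤ × ℤ => cov (N := N) (m := m) 0 z) ''
        (↑(Finset.Icc (x - (2 * ℓ + K)) (x + (2 * ℓ + K)) ×ˢ Finset.Ico (0:ℤ) m) : Set (ℤ × ℤ)) := by
    intro w hw
    obtain ⟨⟨x', y'⟩, rfl, hr⟩ := lift_reach hN hm 0 hw
    rw [← per_FF] at hr
    have hb := QC_bound hK hℓ (by exact_mod_cast h1) (by exact_mod_cast h2) hQ hr
    have hm0 : (0:ℤ) < m := by exact_mod_cast (by omega : 0 < m)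
    refine ⟨(x', y' % m), ?_, ?_⟩
    · rw [Finset.coe_product, Set.mem_prod, Finset.mem_coe, Finset.mem_coe, Finset.mem_Icc,
        Finset.mem_Ico]
      exact ⟨hb, Int.emod_nonneg _ hm0.ne', Int.emod_lt_of_pos _ hm0⟩
    · show cov (N := N) (m := m) 0 (x', y' % m) = cov 0 (x', y')
      rw [cov_eq_iff]
      refine ⟨by simp, ?_⟩
      show (m:ℤ) ∣ y' % m - y'
      rw [← dvd_neg, neg_sub]
      exact Int.dvd_self_sub_emod
  refine (Set.ncard_le_ncard hsub ((Finset.finite_toSet _).image _)).trans ?_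
  refine (Set.ncard_image_le (Finset.finite_toSet _)).trans ?_
  rw [Set.ncard_coe_finset, Finset.card_product, Int.card_Icc, Int.card_Ico]
  apply Nat.mul_le_mul
  · omega
  · omega

theorem large_prob {C : ℝ} (hC : 0 < C) : ∃ c : ℝ, 0 < c ∧ ∀ᶠ n in atTop,
    (percolation (torus (Nk n) (mk n)) par).real
      (someLargeComponent (torus (Nk n) (mk n)) C) ≤ 1 - c := by
  obtain ⟨K0, hK0⟩ := exists_nat_ge (16 / C)
  set K := K0 + 1 with hKd
  have hK : 1 ≤ K := by omega
  have hKC : 16 < C * K := by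
    have h1 : 16 / C < K := by
      rw [hKd]; push_cast; linarith
    rw [div_lt_iff₀ hC] at h1
    linarith
  have hKr : (1:ℝ) ≤ K := by exact_mod_cast hK
  refine ⟨(1 / (8 * (K:ℝ))) ^ K, by positivity, ?_⟩
  filter_upwards [eventually_ge_atTop K] with n hn
  set ℓ := Nk n / K with hℓd
  have hNK := Nk_ge_K n K hK hn
  have hsk := sk_ge n
  have hmk := mk_gt n
  have hℓ : 1 ≤ ℓ := by
    rw [hℓd]
    exact (Nat.le_div_iff_mul_le (by omega)).mpr (by nlinarith)
  have h1 : K * ℓ ≤ Nk n := by rw [hℓd]; exact Nat.mul_div_le _ _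
  have h2 : Nk n < K * (ℓ + 1) := by
    rw [hℓd]
    have := Nat.lt_mul_div_succ (Nk n) (show 0 < K by omega)
    simpa using this
  have hlaw := law_event (tau (Nk3 n) (mk3 n) 0) par (tau_injOn (Nk3 n) (mk3 n) 0)
    (fun F => ¬ QC (mk n) K ℓ F)
  have hm0 : (0:ℤ) < mk n := by
    have := mk_ge n
    exact_mod_cast (by omega : 0 < mk n)
  rw [Pr_not, pr_QC hm0 (by exact_mod_cast h1)] at hlaw
  have hbb := bb_seg n K hK hn
  have hpow : (1 / (8 * (K:ℝ))) ^ K ≤ (bb par (mk n) ((ℓ : ℤ) - 1)) ^ K :=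
    pow_le_pow_left₀ (by positivity) hbb K
  have hsub : (percolation (torus (Nk n) (mk n)) par).real
      (someLargeComponent (torus (Nk n) (mk n)) C) ≤
      (bLaw (torus (Nk n) (mk n)) par).real
        {ω | ¬ QC (mk n) K ℓ (FF (tau (Nk3 n) (mk3 n) 0) (FD (Nk n) (mk n)) ω)} := by
    show (bLaw (torus (Nk n) (mk n)) par).real _ ≤ (bLaw (torus (Nk n) (mk n)) par).real _
    refine measureReal_mono ?_ (measure_ne_top _ _)
    rintro ω ⟨v, hv⟩ hQ
    have hsm := small_comp (Nk3 n) (mk3 n) hK hℓ h1 h2 hQ v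
    have hcard : (Nat.card (ZMod (Nk n) × ZMod (mk n)) : ℝ) = (Nk n : ℝ) * mk n := by
      rw [Nat.card_prod, Nat.card_zmod, Nat.card_zmod]
      push_cast; ring
    rw [hcard] at hv
    have hsm' : ((component (torus (Nk n) (mk n)) ω v).ncard : ℝ) ≤
        (4 * ℓ + 2 * K + 1) * mk n := by exact_mod_cast hsm
    have hmr : (0:ℝ) < mk n := by exact_mod_cast hm0
    have h3 : C * Nk n ≤ 4 * ℓ + 2 * K + 1 := by
      have : (C * Nk n) * mk n ≤ (4 * ℓ + 2 * K + 1) * mk n := by
        calc (C * Nk n) * mk n = C * (Nk n * mk n) := by ring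
          _ ≤ _ := hv
          _ ≤ _ := hsm'
      exact le_of_mul_le_mul_right this hmr
    have h4 : (K:ℝ) * ℓ ≤ Nk n := by exact_mod_cast h1
    have h5 : K * K ≤ Nk n := by
      refine le_trans ?_ hNK
      apply Nat.mul_le_mul_left
      omega
    have h6 : (K:ℝ) * K ≤ Nk n := by exact_mod_cast h5
    have hNr : (0:ℝ) < Nk n := by
      have := Nk3 n
      exact_mod_cast (by omega : 0 < Nk n)
    have h7 : (C * Nk n) * K ≤ (4 * ℓ + 2 * K + 1) * K :=
      mul_le_mul_of_nonneg_right h3 (by positivity)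
    have h8 : 16 * (Nk n : ℝ) < (C * K) * Nk n := mul_lt_mul_of_pos_right hKC hNr
    nlinarith
  refine hsub.trans ?_
  rw [hlaw]
  linarith

/-- **Q1 is false.** There are 4-regular connected finite transitive graphs `G n` with
`|V n| → ∞`, a parameter `p` and `δ > 0` such that every vertex of every `G n` lies with
probability more than `δ` in a component of diameter at least `diam (G n) / 2`, and such that for
every `C > 0` the probability that some component of `G n` has at least `C |V n|` vertices is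
bounded away from `1` for all large `n`. -/
theorem result : ∃ (V : ℕ → Type) (G : ∀ n, SimpleGraph (V n)) (p : unitInterval) (δ : ℝ),
    (∀ n, Finite (V n) ∧ (G n).Connected ∧ (∀ v, ((G n).neighborSet v).ncard = 4) ∧
      ∀ u v, ∃ φ : G n ≃g G n, φ u = v) ∧
    Tendsto (fun n => Nat.card (V n)) atTop atTop ∧
    0 < δ ∧
    (∀ n v, δ < (percolation (G n) p).real (inLongComponent (G n) v)) ∧
    ∀ C : ℝ, 0 < C → ∃ c : ℝ, 0 < c ∧ ∀ᶠ n in atTop,
      (percolation (G n) p).real (someLargeComponent (G n) C) ≤ 1 - c := by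
  refine ⟨fun n => ZMod (Nk n) × ZMod (mk n), fun n => torus (Nk n) (mk n), par, 1 / 5,
    ?_, ?_, by norm_num, ?_, ?_⟩
  · intro n
    have : NeZero (Nk n) := ⟨by have := Nk3 n; omega⟩
    have : NeZero (mk n) := ⟨by have := mk3 n; omega⟩
    exact ⟨inferInstance, torus_connected (Nk3 n) (mk3 n), torus_regular (Nk3 n) (mk3 n),
      torus_transitive (Nk3 n) (mk3 n)⟩
  · apply tendsto_atTop_mono (f := fun n => n)
    · intro n
      rw [Nat.card_prod, Nat.card_zmod, Nat.card_zmod]
      have h1 := mk_gt n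
      have h2 := Nk3 n
      nlinarith
    · exact tendsto_id
  · intro n v
    have := long_prob n v
    linarith
  · intro C hC
    exact large_prob hC

end Pool.Agent.Results.MP_6e7106_pr.ThinTori
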